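import Pool.Agent.Run7.h454.Copy2

set_option autoImplicit false

/-!
# Planes of order 3 modulo 4 in which every quadrangle lies in a subplane `PG(2, p)`

Let `p` be an odd prime and let every quadrangle of a finite projective plane of order `n`
generate a subplane isomorphic to `PG(2, p)`. If `n` is congruent to `3` modulo `4` then the plane
is `PG(2, F)` for a field `F`, and its order is a power of `p`.
-/

namespace Pool.Agent.Results.MP_994e17_co.ClassicalSubplanes

/-- The points `a`, `b`, `c` lie on a common line. -/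
def Collinear {P : Type} (L : Type) [Membership P L] (a b c : P) : Prop :=
  ∃ k : L, a ∈ k ∧ b ∈ k ∧ c ∈ k

/-- Every quadrangle (four points, no three of them collinear) lies in a subplane which is
isomorphic to `PG(2, p)`: the image of injective maps `f`, `g` of the points and lines of
`PG(2, p)` which preserve incidence and non-incidence. (`PG(2, p)` is generated by each of its
quadrangles, so this is the subplane generated by the quadrangle.) -/
def QuadranglesGeneratePG (P L : Type) [Membership P L] (p : ℕ) [Fact p.Prime] : Prop :=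
  ∀ a b c d : P, ¬ Collinear L a b c → ¬ Collinear L a b d → ¬ Collinear L a c d →
    ¬ Collinear L b c d →
    ∃ (f : Projectivization (ZMod p) (Fin 3 → ZMod p) → P)
      (g : {W : Submodule (ZMod p) (Fin 3 → ZMod p) // Module.finrank (ZMod p) W = 2} → L),
      Function.Injective f ∧ Function.Injective g ∧
      (∀ x W, f x ∈ g W ↔ x.submodule ≤ W.1) ∧
      a ∈ Set.range f ∧ b ∈ Set.range f ∧ c ∈ Set.range f ∧ d ∈ Set.range f

/-- The plane is `PG(2, F)` for some field `F`. -/
def Desarguesian (P L : Type) [Membership P L] : Prop :=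
  ∃ (F : Type) (_ : Field F) (f : P ≃ Projectivization F (Fin 3 → F))
    (g : L ≃ {W : Submodule F (Fin 3 → F) // Module.finrank F W = 2}),
    ∀ (p : P) (l : L), p ∈ l ↔ (f p).submodule ≤ (g l).1

/-- A finite projective plane of order congruent to 3 modulo 4 in which every quadrangle generates
a subplane isomorphic to `PG(2, p)`, `p` a fixed odd prime, is `PG(2, F)` for a field `F`, and its
order is a power of `p`. -/
theorem result (P L : Type) [Membership P L] [Configuration.ProjectivePlane P L] [Finite P]
    [Finite L] (p : ℕ) [Fact p.Prime] (hp : p ≠ 2) (h : QuadranglesGeneratePG P L p)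
    (hn : Configuration.ProjectivePlane.order P L % 4 = 3) :
    (∃ k : ℕ, Configuration.ProjectivePlane.order P L = p ^ k) ∧ Desarguesian P L := by
  have hprime : p.Prime := Fact.out
  have hc : ∀ a b c d : P, ¬ Pool.Agent.Run7.H454.Col L a b c →
      ¬ Pool.Agent.Run7.H454.Col L a b d → ¬ Pool.Agent.Run7.H454.Col L a c d →
      ¬ Pool.Agent.Run7.H454.Col L b c d →
      Pool.Agent.Run7.H454.InCopy (ZMod p) L a b c d := by
    intro a b c d h1 h2 h3 h4
    obtain ⟨f, g, hf, -, hfg, hr⟩ := h a b c d h1 h2 h3 h4
    exact ⟨f, g, hf, hfg, hr⟩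
  have hE : Pool.Agent.Run7.H454.EvenTranslations P L :=
    Pool.Agent.Run7.H454.even_of_copies fun a b c d h1 h2 h3 h4 =>
      ⟨ZMod p, inferInstance, p, by simp, hprime.odd_of_ne_two hp, hc a b c d h1 h2 h3 h4⟩
  have hB : Pool.Agent.Run7.H454.BR P L := Pool.Agent.Run7.H454.BR_of_even hE
  obtain ⟨F, fld, f, g, hfg⟩ := Pool.Agent.Run7.H454.iso_of_HH ⟨hB, hn⟩
  refine ⟨?_, F, fld, f, g, hfg⟩
  have h1 := Pool.Agent.Run7.H454.isPrimePow_of_iso (L := L) f
  have h2 := Pool.Agent.Run7.H454.dvd_order (P := P) (L := L) p hc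
  rw [isPrimePow_nat_iff] at h1
  obtain ⟨r, k, hr, hk, hrk⟩ := h1
  rw [← hrk] at h2
  have h3 := (Nat.prime_dvd_prime_iff_eq hprime hr).1 (hprime.dvd_of_dvd_pow h2)
  exact ⟨k, by rw [← hrk, h3]⟩

end Pool.Agent.Results.MP_994e17_co.ClassicalSubplanes
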